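import Pool.Agent.Work.MP_dc63d3_gt.Defs

-- merged part: Pool.Agent.Work.MP_dc63d3_gt.Basic
section
/-!
Two sided closeness of finite sets.
-/

set_option autoImplicit false

namespace Pool.Agent.Work.MP_dc63d3_gt

open Metric

variable {X : Type} [MetricSpace X]

/-- Every point of either set is within `d` of the other set. -/
def Near (s t : Finset X) (d : ℝ) : Prop :=
  (∀ x ∈ s, ∃ y ∈ t, dist x y ≤ d) ∧ ∀ y ∈ t, ∃ x ∈ s, dist y x ≤ d

lemma Near.symm {s t : Finset X} {d : ℝ} (h : Near s t d) : Near t s d := ⟨h.2, h.1⟩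

lemma Near.mono {s t : Finset X} {d e : ℝ} (h : Near s t d) (hd : d ≤ e) : Near s t e :=
  ⟨fun x hx => (h.1 x hx).imp fun _ k => ⟨k.1, k.2.trans hd⟩,
    fun x hx => (h.2 x hx).imp fun _ k => ⟨k.1, k.2.trans hd⟩⟩

lemma Near.trans {s t u : Finset X} {d e : ℝ} (h : Near s t d) (k : Near t u e) :
    Near s u (d + e) := by
  constructor
  · intro x hx
    obtain ⟨y, hy, a⟩ := h.1 x hx
    obtain ⟨z, hz, b⟩ := k.1 y hy
    exact ⟨z, hz, (dist_triangle x y z).trans (add_le_add a b)⟩
  · intro x hx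
    obtain ⟨y, hy, a⟩ := k.2 x hx
    obtain ⟨z, hz, b⟩ := h.2 y hy
    exact ⟨z, hz, (dist_triangle x y z).trans (by linarith)⟩

lemma near_refl (s : Finset X) {d : ℝ} (hd : 0 ≤ d) : Near s s d :=
  ⟨fun x hx => ⟨x, hx, by simpa using hd⟩, fun x hx => ⟨x, hx, by simpa using hd⟩⟩

lemma Near.hd_le {s t : Finset X} {d : ℝ} (h : Near s t d) (hd : 0 ≤ d) :
    hausdorffDist (s : Set X) (t : Set X) ≤ d :=
  hausdorffDist_le_of_mem_dist hd h.1 h.2

lemma near_hd {s t : Finset X} (hs : s.Nonempty) (ht : t.Nonempty) :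
    Near s t (hausdorffDist (s : Set X) (t : Set X)) := by
  have key : ∀ s t : Finset X, s.Nonempty → t.Nonempty → ∀ x ∈ s, ∃ y ∈ t,
      dist x y ≤ hausdorffDist (s : Set X) (t : Set X) := by
    intro s t hs ht x hx
    obtain ⟨y, hy, e⟩ := t.finite_toSet.isCompact.exists_infDist_eq_dist ht x
    exact ⟨y, hy, e ▸ infDist_le_hausdorffDist_of_mem hx
      (hausdorffEDist_ne_top_of_nonempty_of_bounded hs ht s.finite_toSet.isBounded
        t.finite_toSet.isBounded)⟩
  exact ⟨key s t hs ht, by rw [hausdorffDist_comm]; exact key t s ht hs⟩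

lemma IsLipRetr.near {n : ℕ} {L : ℝ} {r : Finset X → Finset X} (h : IsLipRetr n L r) (hL : 0 ≤ L)
    {s t : Finset X} (hs : s.Nonempty) (hs' : s.card ≤ n) (ht : t.Nonempty) (ht' : t.card ≤ n)
    {d : ℝ} (hd : 0 ≤ d) (k : Near s t d) : Near (r s) (r t) (L * d) :=
  (near_hd (h.1 s hs hs').1 (h.1 t ht ht').1).mono
    ((h.2.2 s t hs hs' ht ht').trans (mul_le_mul_of_nonneg_left (k.hd_le hd) hL))

lemma isLipRetr_of_near {n : ℕ} {L : ℝ} {r : Finset X → Finset X} (hL : 0 ≤ L)
    (h1 : ∀ s : Finset X, s.Nonempty → s.card ≤ n → (r s).Nonempty ∧ (r s).card ≤ n - 1)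
    (h2 : ∀ s : Finset X, s.Nonempty → s.card ≤ n - 1 → r s = s)
    (h3 : ∀ (s t : Finset X) (d : ℝ), s.Nonempty → s.card ≤ n → t.Nonempty → t.card ≤ n → 0 ≤ d →
      Near s t d → Near (r s) (r t) (L * d)) : IsLipRetr n L r :=
  ⟨h1, h2, fun s t a b c d => (h3 s t _ a b c d hausdorffDist_nonneg (near_hd a c)).hd_le
    (mul_nonneg hL hausdorffDist_nonneg)⟩

end Pool.Agent.Work.MP_dc63d3_gt
end

-- merged part: Pool.Agent.Work.MP_dc63d3_gt.Avg
section
/-!
Uniform weights on a growing family of finite sets, averaged over the parameter.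
-/

set_option autoImplicit false

noncomputable section

namespace Pool.Agent.Work.MP_dc63d3_gt

open MeasureTheory

variable {X : Type}

open Classical in
/-- The uniform weight on `D`. -/
def av (D : Finset X) (y : X) : ℝ := if y ∈ D then (D.card : ℝ)⁻¹ else 0

/-- The uniform weight on `D t`, averaged over `t` in `[1, 2]`. -/
def wt (D : ℝ → Finset X) (y : X) : ℝ := ∫ t in (1 : ℝ)..2, av (D t) y

lemma av_nonneg (D : Finset X) (y : X) : 0 ≤ av D y := by
  unfold av
  split_ifs <;> positivity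

lemma av_le (D : Finset X) (y : X) : av D y ≤ 1 := by
  unfold av
  split_ifs with h
  · exact inv_le_one_of_one_le₀ (by exact_mod_cast Finset.card_pos.2 ⟨y, h⟩)
  · exact zero_le_one

lemma av_zero {D : Finset X} {y : X} (h : y ∉ D) : av D y = 0 := if_neg h

lemma av_sum {D s : Finset X} (h : D ⊆ s) (hD : D.Nonempty) : ∑ y ∈ s, av D y = 1 := by
  have a : ∀ y ∈ D, av D y = (D.card : ℝ)⁻¹ := fun y hy => if_pos hy
  rw [← Finset.sum_subset h (fun y _ hy => av_zero hy), Finset.sum_congr rfl a, Finset.sum_const,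
    nsmul_eq_mul, mul_inv_cancel₀]
  exact_mod_cast hD.card_pos.ne'

lemma av_diff {D E s : Finset X} (h : D ⊆ E) (h' : E ⊆ s) (hD : D.Nonempty) {f : X → ℝ} {R : ℝ}
    (hf : ∀ y ∈ E, f y ≤ R * E.card) :
    ∑ y ∈ s, |av D y - av E y| * f y ≤ 2 * R * (E.card - D.card) := by
  classical
  have hE : (0 : ℝ) < E.card := by exact_mod_cast (hD.mono h).card_pos
  have hD' : (0 : ℝ) < D.card := by exact_mod_cast hD.card_pos
  have hc : (D.card : ℝ) ≤ E.card := by exact_mod_cast Finset.card_le_card h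
  have a : ∀ y ∈ s, |av D y - av E y| * f y ≤
      (av D y - av E y + 2 * (if y ∈ E \ D then (E.card : ℝ)⁻¹ else 0)) * (R * E.card) := by
    intro y _
    by_cases k : y ∈ E
    · refine (mul_le_mul_of_nonneg_left (hf y k) (abs_nonneg _)).trans (le_of_eq ?_)
      congr 1
      by_cases k' : y ∈ D
      · have := inv_anti₀ hD' hc
        rw [if_neg (by simp [k']), av, av, if_pos k, if_pos k', abs_of_nonneg (by linarith)]
        ring
      · rw [if_pos (by simp [k, k']), av, av, if_pos k, if_neg k', zero_sub, abs_neg,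
          abs_of_nonneg (by positivity)]
        ring
    · rw [av_zero k, av_zero (fun c => k (h c)), if_neg (by simp [k])]
      simp
  refine (Finset.sum_le_sum a).trans (le_of_eq ?_)
  rw [← Finset.sum_mul, Finset.sum_add_distrib, Finset.sum_sub_distrib, av_sum (h.trans h') hD,
    av_sum h' (hD.mono h), ← Finset.mul_sum, Finset.sum_ite_mem,
    Finset.inter_eq_right.2 (Finset.sdiff_subset.trans h'), Finset.sum_const, nsmul_eq_mul,
    Finset.card_sdiff_of_subset h, Nat.cast_sub (Finset.card_le_card h)]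
  field_simp
  ring

lemma card_mono {D : ℝ → Finset X} (hD : Monotone D) : Monotone fun t => ((D t).card : ℝ) :=
  fun _ _ h => Nat.cast_le.2 (Finset.card_le_card (hD h))

lemma av_ii {D : ℝ → Finset X} (hD : Monotone D) (y : X) :
    IntervalIntegrable (fun t => av (D t) y) volume 1 2 := by
  classical
  have m1 : Monotone fun t => if y ∈ D t then (1 : ℝ) else 0 := by
    intro a b h
    dsimp only
    split_ifs with h1 h2
    · rfl
    · exact absurd (hD h h1) h2
    · exact zero_le_one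
    · rfl
  have e : (fun t => av (D t) y) =
      fun t => (if y ∈ D t then (1 : ℝ) else 0) * ((D t).card : ℝ)⁻¹ := by
    funext t
    unfold av
    split_ifs <;> simp
  have m : Measurable fun t => av (D t) y := by
    rw [e]
    exact m1.measurable.mul (card_mono hD).measurable.inv
  refine (intervalIntegrable_const (c := (1 : ℝ))).mono_fun' m.aestronglyMeasurable
    (Filter.Eventually.of_forall fun t => ?_)
  dsimp only
  rw [Real.norm_of_nonneg (av_nonneg _ _)]
  exact av_le _ _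

lemma wt_nonneg (D : ℝ → Finset X) (y : X) : 0 ≤ wt D y :=
  intervalIntegral.integral_nonneg (by norm_num) fun _ _ => av_nonneg _ _

lemma wt_congr {D D' : ℝ → Finset X} {y y' : X}
    (h : ∀ t ∈ Set.Icc (1 : ℝ) 2, av (D t) y = av (D' t) y') : wt D y = wt D' y' :=
  intervalIntegral.integral_congr fun t ht => h t (by rwa [Set.uIcc_of_le (by norm_num)] at ht)

lemma wt_zero {D : ℝ → Finset X} (hD : Monotone D) {y : X} (h : y ∉ D 2) : wt D y = 0 := by
  rw [wt, intervalIntegral.integral_congr (g := fun _ => 0)]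
  · simp
  · intro t ht
    rw [Set.uIcc_of_le (by norm_num)] at ht
    exact av_zero fun c => h (hD ht.2 c)

lemma wt_sum {D : ℝ → Finset X} (hD : Monotone D) {s : Finset X} (h : ∀ t, D t ⊆ s)
    (h' : ∀ t, (D t).Nonempty) : ∑ y ∈ s, wt D y = 1 := by
  unfold wt
  rw [← intervalIntegral.integral_finsetSum fun y _ => av_ii hD y]
  simp only [av_sum (h _) (h' _)]
  norm_num

lemma shift_int {N : ℝ → ℝ} (hN : Monotone N) {n η : ℝ} (hη : 0 ≤ η) (h0 : ∀ t, 0 ≤ N t)
    (h1 : ∀ t, N t ≤ n) : ∫ t in (1 : ℝ)..2, (N (t + η) - N (t - η)) ≤ 2 * η * n := by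
  have i1 : IntervalIntegrable (fun t => N (t + η)) volume 1 2 :=
    Monotone.intervalIntegrable fun a b h => hN (by linarith)
  have i2 : IntervalIntegrable (fun t => N (t - η)) volume 1 2 :=
    Monotone.intervalIntegrable fun a b h => hN (by linarith)
  rw [intervalIntegral.integral_sub i1 i2, intervalIntegral.integral_comp_add_right,
    intervalIntegral.integral_comp_sub_right,
    intervalIntegral.integral_interval_sub_interval_comm' hN.intervalIntegrable
      hN.intervalIntegrable hN.intervalIntegrable]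
  have a : ∫ t in (2 - η)..(2 + η), N t ≤ ∫ _ in (2 - η)..(2 + η), n :=
    intervalIntegral.integral_mono_on (by linarith) hN.intervalIntegrable
      intervalIntegrable_const fun t _ => h1 t
  have b : 0 ≤ ∫ t in (1 - η)..(1 + η), N t :=
    intervalIntegral.integral_nonneg (by linarith) fun t _ => h0 t
  rw [intervalIntegral.integral_const, smul_eq_mul] at a
  linarith

lemma wt_diff {D D' : ℝ → Finset X} (hD : Monotone D) (hD' : Monotone D') {s : Finset X}
    (hs : ∀ t, D t ⊆ s) (hne : ∀ t, (D t).Nonempty) {η R : ℝ} (hη : 0 ≤ η) (hR : 0 ≤ R)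
    (h1 : ∀ t ∈ Set.Icc (1 : ℝ) 2, D (t - η) ⊆ D' t ∧ D' t ⊆ D (t + η)) {f : X → ℝ}
    (hf0 : ∀ y, 0 ≤ f y) (hf : ∀ t ∈ Set.Icc (1 : ℝ) 2, ∀ y ∈ D (t + η), f y ≤ R * (D (t + η)).card) :
    ∑ y ∈ s, |wt D y - wt D' y| * f y ≤ 8 * R * η * s.card := by
  have ii : ∀ y, IntervalIntegrable (fun t => |av (D t) y - av (D' t) y| * f y) volume 1 2 :=
    fun y => ((av_ii hD y).sub (av_ii hD' y)).abs.mul_const _
  have a : ∀ y ∈ s, |wt D y - wt D' y| * f y ≤
      ∫ t in (1 : ℝ)..2, |av (D t) y - av (D' t) y| * f y := by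
    intro y _
    rw [intervalIntegral.integral_mul_const, wt, wt,
      ← intervalIntegral.integral_sub (av_ii hD y) (av_ii hD' y)]
    exact mul_le_mul_of_nonneg_right
      (intervalIntegral.abs_integral_le_integral_abs (by norm_num)) (hf0 y)
  refine (Finset.sum_le_sum a).trans ?_
  rw [← intervalIntegral.integral_finsetSum fun y _ => ii y]
  have m := card_mono hD
  have i1 : IntervalIntegrable (fun t => ((D (t + η)).card : ℝ)) volume 1 2 :=
    Monotone.intervalIntegrable fun a b h => m (by linarith)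
  have i2 : IntervalIntegrable (fun t => ((D (t - η)).card : ℝ)) volume 1 2 :=
    Monotone.intervalIntegrable fun a b h => m (by linarith)
  have i3 : IntervalIntegrable (fun t => ∑ y ∈ s, |av (D t) y - av (D' t) y| * f y) volume 1 2 := by
    have := IntervalIntegrable.sum s fun y _ => ii y
    rwa [Finset.sum_fn] at this
  have b := intervalIntegral.integral_mono_on (by norm_num : (1 : ℝ) ≤ 2) i3
    ((i1.sub i2).const_mul (4 * R)) (fun t ht => by
      have c1 := av_diff (hD (by linarith : t ≤ t + η)) (hs _) (hne t) (hf t ht)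
      have c2 := av_diff (h1 t ht).2 (hs _) ((hne _).mono (h1 t ht).1) (hf t ht)
      have c3 : ((D (t - η)).card : ℝ) ≤ (D t).card := m (by linarith)
      have c4 : ((D (t - η)).card : ℝ) ≤ (D' t).card :=
        Nat.cast_le.2 (Finset.card_le_card (h1 t ht).1)
      have c5 : ∑ y ∈ s, |av (D t) y - av (D' t) y| * f y ≤
          ∑ y ∈ s, |av (D t) y - av (D (t + η)) y| * f y +
            ∑ y ∈ s, |av (D' t) y - av (D (t + η)) y| * f y := by
        rw [← Finset.sum_add_distrib]
        refine Finset.sum_le_sum fun y _ => ?_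
        rw [← add_mul, abs_sub_comm (av (D' t) y)]
        exact mul_le_mul_of_nonneg_right (abs_sub_le _ _ _) (hf0 y)
      nlinarith)
  refine b.trans ?_
  rw [intervalIntegral.integral_const_mul]
  have c := shift_int m hη (n := s.card) (fun _ => Nat.cast_nonneg _)
    (fun t => Nat.cast_le.2 (Finset.card_le_card (hs t)))
  nlinarith

end Pool.Agent.Work.MP_dc63d3_gt
end
end

-- merged part: Pool.Agent.Work.MP_dc63d3_gt.Upper
section
/-!
A retraction with Lipschitz constant linear in `n`: every point moves to the average, over the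
scales between the least distance and twice the least distance, of the barycentre of its
single linkage cluster.
-/

set_option autoImplicit false

noncomputable section

namespace Pool.Agent.Work.MP_dc63d3_gt

section cluster

variable {X : Type} [MetricSpace X]

open Classical in
/-- The points of `s` joined to `x` by a chain in `s` with steps at most `a`. -/
def Cl (s : Finset X) (a : ℝ) (x : X) : Finset X :=
  s.filter (Relation.ReflTransGen (fun p q => p ∈ s ∧ q ∈ s ∧ dist p q ≤ a) x)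

lemma mem_Cl {s : Finset X} {a : ℝ} {x y : X} : y ∈ Cl s a x ↔
    y ∈ s ∧ Relation.ReflTransGen (fun p q => p ∈ s ∧ q ∈ s ∧ dist p q ≤ a) x y := by
  simp [Cl]

lemma Cl_subset (s : Finset X) (a : ℝ) (x : X) : Cl s a x ⊆ s := fun _ h => (mem_Cl.1 h).1

lemma self_mem_Cl {s : Finset X} (a : ℝ) {x : X} (h : x ∈ s) : x ∈ Cl s a x :=
  mem_Cl.2 ⟨h, Relation.ReflTransGen.refl⟩

lemma Cl_map {s s' : Finset X} {a b : ℝ} {φ : X → X} (h : ∀ p ∈ s, φ p ∈ s')
    (h' : ∀ p ∈ s, ∀ q ∈ s, dist p q ≤ a → dist (φ p) (φ q) ≤ b) {x y : X} (hy : y ∈ Cl s a x) :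
    φ y ∈ Cl s' b (φ x) :=
  mem_Cl.2 ⟨h y (mem_Cl.1 hy).1, Relation.ReflTransGen.lift φ
    (fun p q k => ⟨h p k.1, h q k.2.1, h' p k.1 q k.2.1 k.2.2⟩) _ _ (mem_Cl.1 hy).2⟩

lemma Cl_mono (s : Finset X) (x : X) {δ : ℝ} (hδ : 0 ≤ δ) : Monotone fun t => Cl s (t * δ) x :=
  fun _ _ h _ hy => Cl_map (φ := id) (fun _ k => k)
    (fun _ _ _ _ k => k.trans (mul_le_mul_of_nonneg_right h hδ)) hy

lemma Cl_eq {s : Finset X} {a : ℝ} {x x' : X} (hx : x ∈ s) (hx' : x' ∈ s) (h : dist x x' ≤ a) :
    Cl s a x = Cl s a x' := by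
  ext y
  rw [mem_Cl, mem_Cl]
  exact and_congr_right fun _ => ⟨fun k => k.head ⟨hx', hx, by rwa [dist_comm]⟩,
    fun k => k.head ⟨hx, hx', h⟩⟩

lemma Cl_rad {s : Finset X} {a : ℝ} (ha : 0 ≤ a) {x y : X} (hy : y ∈ Cl s a x) :
    dist y x ≤ a * (Cl s a x).card := by
  classical
  have key : ∀ y, Relation.ReflTransGen (fun p q => p ∈ s ∧ q ∈ s ∧ dist p q ≤ a) x y →
      ∀ c, c ≤ dist y x → c ≤ a * ((Cl s a x).filter (fun z => dist z x < c)).card := by
    intro y hy
    induction hy with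
    | refl =>
      intro c hc
      rw [dist_self] at hc
      exact hc.trans (by positivity)
    | @tail p q hp hq ih =>
      intro c hc
      by_cases k : c ≤ dist p x
      · exact ih c k
      · have h1 := ih _ le_rfl
        have h2 : ((Cl s a x).filter (fun z => dist z x < dist p x)).card + 1 ≤
            ((Cl s a x).filter (fun z => dist z x < c)).card := by
          refine Finset.card_lt_card ⟨fun z hz => ?_, fun hh => ?_⟩
          · rw [Finset.mem_filter] at hz ⊢
            exact ⟨hz.1, hz.2.trans (not_le.1 k)⟩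
          · have := hh (Finset.mem_filter.2 ⟨mem_Cl.2 ⟨hq.1, hp⟩, not_le.1 k⟩)
            simp at this
        have h3 := mul_le_mul_of_nonneg_left (Nat.cast_le (α := ℝ).2 h2) ha
        have h4 := dist_triangle_left q x p
        push_cast at h3
        linarith [hq.2.2]
  exact (key y (mem_Cl.1 hy).2 _ le_rfl).trans
    (mul_le_mul_of_nonneg_left (Nat.cast_le.2 (Finset.card_filter_le _ _)) ha)

/-- A close pair of well separated sets is matched by a bijection. -/
lemma exists_match {s t : Finset X} {d : ℝ} (h : Near s t d) (hd : 2 * d < (s : Set X).infsep)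
    (hc : t.card ≤ s.card) : ∃ φ ψ : X → X, (∀ p ∈ s, φ p ∈ t ∧ dist p (φ p) ≤ d ∧ ψ (φ p) = p) ∧
      ∀ q ∈ t, ψ q ∈ s ∧ φ (ψ q) = q := by
  classical
  choose! φ h1 h2 using h.1
  have inj : Set.InjOn φ s := by
    intro p hp q hq e
    by_contra k
    have a := Set.infsep_le_dist_of_mem hp hq k
    have b := dist_triangle_right p q (φ p)
    have c := h2 p hp
    have c' := h2 q hq
    rw [← e] at c'
    linarith
  have sur : Set.SurjOn φ s t := Finset.surjOn_of_injOn_of_card_le φ h1 inj hc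
  by_cases hs : s.Nonempty
  · have : Nonempty X := ⟨hs.choose⟩
    exact ⟨φ, Function.invFunOn φ s, fun p hp => ⟨h1 p hp, h2 p hp, inj.leftInvOn_invFunOn hp⟩,
      fun q hq => ⟨Function.invFunOn_mem (sur hq), Function.invFunOn_eq (sur hq)⟩⟩
  · exact ⟨φ, φ, fun p hp => absurd ⟨p, hp⟩ hs, fun q hq => absurd ⟨_, (sur hq).choose_spec.1⟩ hs⟩

lemma infsep_le_of_match {s t : Finset X} {d : ℝ} (hs : (s : Set X).Nontrivial) {φ ψ : X → X}
    (h : ∀ p ∈ s, φ p ∈ t ∧ dist p (φ p) ≤ d ∧ ψ (φ p) = p) :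
    (t : Set X).infsep ≤ (s : Set X).infsep + 2 * d := by
  obtain ⟨p, hp, q, hq, k, e⟩ := s.finite_toSet.infsep_exists_of_nontrivial hs
  have a := Set.infsep_le_dist_of_mem (h p hp).1 (h q hq).1
    (fun c => k (by rw [← (h p hp).2.2, c, (h q hq).2.2]))
  have b := dist_triangle4_left p q (φ p) (φ q)
  have c := dist_triangle4 (φ p) p q (φ q)
  rw [dist_comm (φ p) p] at c
  linarith [(h p hp).2.1, (h q hq).2.1]

end cluster

variable {X : Type} [NormedAddCommGroup X] [NormedSpace ℝ X]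

/-- The new position of the point `x`. -/
def ctr (s : Finset X) (δ : ℝ) (x : X) : X := ∑ y ∈ s, wt (fun t => Cl s (t * δ) x) y • y

lemma ctr_sub {s : Finset X} {w : X → ℝ} (hw : ∑ y ∈ s, w y = 1) (g : X → X) (x : X) :
    ∑ y ∈ s, w y • g y - x = ∑ y ∈ s, w y • (g y - x) := by
  simp only [smul_sub, Finset.sum_sub_distrib, ← Finset.sum_smul, hw, one_smul]

lemma ctr_dist {s : Finset X} {δ : ℝ} (hδ : 0 ≤ δ) {x : X} (hx : x ∈ s) :
    dist (ctr s δ x) x ≤ 2 * δ * s.card := by
  have m := Cl_mono s x hδ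
  have a := wt_sum m (fun _ => Cl_subset s _ x) (fun _ => ⟨x, self_mem_Cl _ hx⟩)
  rw [dist_eq_norm, ctr, ctr_sub a (fun y => y)]
  refine (norm_sum_le _ _).trans ?_
  rw [← one_mul (2 * δ * s.card), ← a, Finset.sum_mul]
  refine Finset.sum_le_sum fun y _ => ?_
  rw [norm_smul, Real.norm_of_nonneg (wt_nonneg _ _)]
  by_cases k : y ∈ Cl s (2 * δ) x
  · refine mul_le_mul_of_nonneg_left ?_ (wt_nonneg _ _)
    rw [← dist_eq_norm]
    exact (Cl_rad (by positivity) k).trans (mul_le_mul_of_nonneg_left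
      (Nat.cast_le.2 (Finset.card_le_card (Cl_subset _ _ _))) (by positivity))
  · rw [wt_zero m k, zero_mul, zero_mul]

lemma ctr_eq {s : Finset X} {δ : ℝ} (hδ : 0 ≤ δ) {x x' : X} (hx : x ∈ s) (hx' : x' ∈ s)
    (h : dist x x' ≤ δ) : ctr s δ x = ctr s δ x' :=
  Finset.sum_congr rfl fun y _ => by
    rw [wt_congr (y' := y) fun t ht => by
      rw [Cl_eq hx hx' (h.trans (le_mul_of_one_le_left hδ ht.1))]]

lemma ctr_stab {s s' : Finset X} {δ δ' d : ℝ} (hd : 0 ≤ d) (h4 : 4 * d < δ) (h1 : δ ≤ δ' + 2 * d)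
    (h2 : δ' ≤ δ + 2 * d) {φ ψ : X → X} (h : ∀ p ∈ s, φ p ∈ s' ∧ dist p (φ p) ≤ d ∧ ψ (φ p) = p)
    (h' : ∀ q ∈ s', ψ q ∈ s ∧ φ (ψ q) = q) {x : X} (hx : x ∈ s) :
    dist (ctr s δ x) (ctr s' δ' (φ x)) ≤ 168 * d * s.card + d := by
  classical
  have hδ : 0 < δ := by linarith
  have hδ' : 0 ≤ δ' := by linarith
  obtain ⟨η, hη⟩ : ∃ η, η = 6 * d / δ := ⟨_, rfl⟩
  have e1 : η * δ = 6 * d := by rw [hη, div_mul_cancel₀ _ hδ.ne']
  have η0 : 0 ≤ η := by rw [hη]; positivity
  let D' : ℝ → Finset X := fun t => s.filter (fun y => φ y ∈ Cl s' (t * δ') (φ x))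
  have m := Cl_mono s x hδ.le
  have m0 := Cl_mono s' (φ x) hδ'
  have m' : Monotone D' := fun a b k y hy => by
    rw [Finset.mem_filter] at hy ⊢
    exact ⟨hy.1, m0 k hy.2⟩
  have c1 : ∀ t, (Cl s' (t * δ') (φ x)).card = (D' t).card := fun t =>
    Finset.card_nbij' ψ φ
      (fun q hq => Finset.mem_coe.2 (Finset.mem_filter.2 ⟨(h' q (Cl_subset _ _ _ hq)).1,
        by rw [(h' q (Cl_subset _ _ _ hq)).2]; exact hq⟩))
      (fun p hp => (Finset.mem_filter.1 (Finset.mem_coe.1 hp)).2)
      (fun q hq => (h' q (Cl_subset _ _ _ hq)).2)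
      (fun p hp => (h p (Finset.mem_filter.1 (Finset.mem_coe.1 hp)).1).2.2)
  have c2 : ctr s' δ' (φ x) = ∑ y ∈ s, wt D' y • φ y := by
    refine (Finset.sum_nbij' φ ψ (fun p hp => (h p hp).1) (fun q hq => (h' q hq).1)
      (fun p hp => (h p hp).2.2) (fun q hq => (h' q hq).2) (fun y hy => ?_)).symm
    rw [wt_congr (D := D') (D' := fun t => Cl s' (t * δ') (φ x)) (y := y) (y' := φ y)]
    intro t _
    unfold av
    rw [c1]
    simp [D', hy]
  have a := wt_sum m (fun _ => Cl_subset s _ x) (fun _ => ⟨x, self_mem_Cl _ hx⟩)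
  have a' := wt_sum m' (s := s) (fun _ => Finset.filter_subset _ _)
    (fun _ => ⟨x, Finset.mem_filter.2 ⟨hx, self_mem_Cl _ (h x hx).1⟩⟩)
  have b := wt_diff m m' (fun _ => Cl_subset s _ x) (fun _ => ⟨x, self_mem_Cl _ hx⟩) η0
    (R := 7 / 2 * δ) (by positivity) (fun t ht => ⟨fun y hy => ?_, fun y hy => ?_⟩)
    (f := fun y => ‖y - x‖) (fun _ => norm_nonneg _) (fun t ht y hy => ?_)
  · have e2 : ctr s δ x - ctr s' δ' (φ x) =
        ∑ y ∈ s, ((wt (fun t => Cl s (t * δ) x) y - wt D' y) • (y - x) + wt D' y • (y - φ y)) := by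
      have e3 := ctr_sub a (fun y => y) x
      have e4 := ctr_sub a' φ x
      rw [c2, ctr, ← sub_sub_sub_cancel_right _ _ x, e3, e4, ← Finset.sum_sub_distrib]
      refine Finset.sum_congr rfl fun y _ => ?_
      simp only [smul_sub, sub_smul]
      abel
    rw [dist_eq_norm, e2]
    refine (norm_sum_le _ _).trans ?_
    have e5 : ∀ y ∈ s, ‖(wt (fun t => Cl s (t * δ) x) y - wt D' y) • (y - x) + wt D' y • (y - φ y)‖ ≤
        |wt (fun t => Cl s (t * δ) x) y - wt D' y| * ‖y - x‖ + wt D' y * d := by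
      intro y hy
      refine (norm_add_le _ _).trans (add_le_add (by rw [norm_smul, Real.norm_eq_abs]) ?_)
      rw [norm_smul, Real.norm_of_nonneg (wt_nonneg _ _), ← dist_eq_norm]
      exact mul_le_mul_of_nonneg_left (h y hy).2.1 (wt_nonneg _ _)
    refine (Finset.sum_le_sum e5).trans ?_
    rw [Finset.sum_add_distrib, ← Finset.sum_mul, a', one_mul]
    have e6 : 8 * (7 / 2 * δ) * η * s.card = 168 * d * s.card := by
      linear_combination (28 * s.card : ℝ) * e1
    linarith
  · refine Finset.mem_filter.2 ⟨Cl_subset _ _ _ hy, Cl_map (fun p hp => (h p hp).1) ?_ hy⟩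
    intro p hp q hq k
    have c := dist_triangle4 (φ p) p q (φ q)
    rw [dist_comm (φ p) p] at c
    nlinarith [(h p hp).2.1, (h q hq).2.1, ht.1, ht.2]
  · obtain ⟨k1, k2⟩ := Finset.mem_filter.1 hy
    have := Cl_map (s' := s) (b := (t + η) * δ) (fun q hq => (h' q hq).1) ?_ k2
    · rwa [(h y k1).2.2, (h x hx).2.2] at this
    · intro p hp q hq k
      have c := dist_triangle4 (ψ p) p q (ψ q)
      have c3 := (h _ (h' p hp).1).2.1
      have c4 := (h _ (h' q hq).1).2.1
      rw [(h' p hp).2] at c3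
      rw [(h' q hq).2, dist_comm] at c4
      nlinarith [ht.1, ht.2]
  · rw [← dist_eq_norm]
    refine (Cl_rad (mul_nonneg (by linarith [ht.1]) hδ.le) hy).trans
      (mul_le_mul_of_nonneg_right ?_ (Nat.cast_nonneg _))
    nlinarith [ht.2]

open Classical in
/-- The retraction. -/
def retr (n : ℕ) (s : Finset X) : Finset X :=
  if s.card = n then s.image (ctr s (s : Set X).infsep) else s

open Classical in
/-- The least distance of an `n` point set, and zero for other sets. -/
def sep (n : ℕ) (s : Finset X) : ℝ := if s.card = n then (s : Set X).infsep else 0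

lemma near_retr (n : ℕ) (s : Finset X) : Near (retr n s) s (2 * sep n s * n) := by
  classical
  unfold retr sep
  split_ifs with h
  · rw [← h]
    refine ⟨fun x hx => ?_, fun x hx => ⟨_, Finset.mem_image_of_mem _ hx, ?_⟩⟩
    · obtain ⟨y, hy, rfl⟩ := Finset.mem_image.1 hx
      exact ⟨y, hy, ctr_dist Set.infsep_nonneg hy⟩
    · rw [dist_comm]
      exact ctr_dist Set.infsep_nonneg hx
  · exact near_refl s (by simp)

omit [NormedSpace ℝ X] in
lemma match_of_sep {n : ℕ} (hn : 2 ≤ n) {s t : Finset X} {d : ℝ} (hd : 0 ≤ d) (h : Near s t d)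
    (ht : t.card ≤ n) (k : 2 * d < sep n s) : s.card = n ∧ t.card = n ∧
      sep n s ≤ sep n t + 2 * d ∧ sep n t ≤ sep n s + 2 * d ∧ ∃ φ ψ : X → X,
      (∀ p ∈ s, φ p ∈ t ∧ dist p (φ p) ≤ d ∧ ψ (φ p) = p) ∧ ∀ q ∈ t, ψ q ∈ s ∧ φ (ψ q) = q := by
  have hs : s.card = n := by
    by_contra c
    rw [sep, if_neg c] at k
    linarith
  rw [sep, if_pos hs] at k
  obtain ⟨φ, ψ, h1, h2⟩ := exists_match h k (hs ▸ ht)
  have ht' : t.card = n := hs ▸ Finset.card_nbij' ψ φ (fun q hq => (h2 q hq).1)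
    (fun p hp => (h1 p hp).1) (fun q hq => (h2 q hq).2) (fun p hp => (h1 p hp).2.2)
  rw [sep, sep, if_pos hs, if_pos ht']
  refine ⟨hs, ht', infsep_le_of_match (Finset.one_lt_card_iff_nontrivial.1 (by omega))
    (φ := ψ) (ψ := φ) (fun q hq => ⟨(h2 q hq).1, ?_, (h2 q hq).2⟩),
    infsep_le_of_match (Finset.one_lt_card_iff_nontrivial.1 (by omega)) h1, φ, ψ, h1, h2⟩
  have := (h1 _ (h2 q hq).1).2.1
  rwa [(h2 q hq).2, dist_comm] at this

theorem upper {n : ℕ} (hn : 2 ≤ n) : IsLipRetr n (170 * n) (retr n : Finset X → Finset X) := by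
  classical
  have hn' : (2 : ℝ) ≤ n := by exact_mod_cast hn
  refine isLipRetr_of_near (by positivity) (fun s hs hc => ?_)
    (fun s _ hc => if_neg (by omega)) (fun s t d _ hs _ ht hd h => ?_)
  · unfold retr
    split_ifs with h
    · refine ⟨by convert hs.image _, ?_⟩
      obtain ⟨p, hp, q, hq, k, e⟩ := s.finite_toSet.infsep_exists_of_nontrivial
        (Finset.one_lt_card_iff_nontrivial.1 (by omega))
      have a : (s.image (ctr s (s : Set X).infsep)).card ≠ s.card := fun c =>
        k (Finset.injOn_of_card_image_eq c hp hq (ctr_eq Set.infsep_nonneg hp hq e.ge))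
      have b : (s.image (ctr s (s : Set X).infsep)).card ≤ s.card := Finset.card_image_le
      have c : (s.image (ctr s (s : Set X).infsep)).card ≤ n - 1 := by omega
      convert c
    · exact ⟨hs, by omega⟩
  · by_cases k : 4 * d < sep n s
    · obtain ⟨a1, a2, a3, a4, φ, ψ, h1, h2⟩ := match_of_sep hn hd h ht (by linarith)
      rw [sep, if_pos a1] at k
      rw [sep, sep, if_pos a1, if_pos a2] at a3
      rw [sep, sep, if_pos a2, if_pos a1] at a4
      have b : ∀ x ∈ s, dist (ctr s (s : Set X).infsep x) (ctr t (t : Set X).infsep (φ x)) ≤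
          170 * n * d := fun x hx => (ctr_stab hd k a3 a4 h1 h2 hx).trans (by rw [a1]; nlinarith)
      rw [retr, retr, if_pos a1, if_pos a2]
      refine ⟨fun x' hx' => ?_, fun y' hy' => ?_⟩
      · obtain ⟨x, hx, rfl⟩ := Finset.mem_image.1 hx'
        exact ⟨_, Finset.mem_image_of_mem _ (h1 x hx).1, b x hx⟩
      · obtain ⟨y, hy, rfl⟩ := Finset.mem_image.1 hy'
        have := b _ (h2 y hy).1
        rw [(h2 y hy).2, dist_comm] at this
        exact ⟨_, Finset.mem_image_of_mem _ (h2 y hy).1, this⟩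
    · have a : sep n t ≤ 6 * d := by
        by_contra c
        have := (match_of_sep hn hd h.symm hs (by linarith)).2.2.1
        linarith
      refine (((near_retr n s).trans h).trans (near_retr n t).symm).mono ?_
      nlinarith [not_lt.1 k]

end Pool.Agent.Work.MP_dc63d3_gt
end
end
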