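import Mathlib
import Pool.Agent.Work.MP_dc63d3_gt.Upper

-- merged part: Pool.Agent.Work.MP_dc63d3_gt.Door
section
/-!
Door counting on the symmetric power of a discrete circle.  A tuple `p` is a simplex whose vertex
`j` is the set obtained by moving the first `j` entries one step.
-/

set_option autoImplicit false

noncomputable section

namespace Pool.Agent.Work.MP_dc63d3_gt

open Finset

variable {N : ℕ}

/-- Entry `c` of vertex `j`. -/
def pt {m : ℕ} (p : Fin m → ZMod N) (j : ℕ) (c : Fin m) : ZMod N :=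
  if (c : ℕ) < j then p c + 1 else p c

/-- Vertex `j` of the simplex `p`. -/
def Vx {m : ℕ} (p : Fin m → ZMod N) (j : ℕ) : Finset (ZMod N) := univ.image (pt p j)

lemma Vx_of {m m' : ℕ} {p : Fin m → ZMod N} {q : Fin m' → ZMod N} {j j' : ℕ} (σ : Fin m → Fin m')
    (hσ : Function.Surjective σ) (h : ∀ c, pt p j c = pt q j' (σ c)) : Vx p j = Vx q j' := by
  have e : pt p j = pt q j' ∘ σ := funext h
  rw [Vx, Vx, e, ← image_image, image_univ_of_surjective hσ]

lemma Vx_comp {m m' : ℕ} (q : Fin m' → ZMod N) {j j' : ℕ} (σ : Fin m → Fin m')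
    (hσ : Function.Surjective σ) (h : ∀ c : Fin m, (c : ℕ) < j ↔ (σ c : ℕ) < j') :
    Vx (q ∘ σ) j = Vx q j' :=
  Vx_of σ hσ fun c => by simp only [pt, h, Function.comp]

lemma Vx_card {m : ℕ} (p : Fin m → ZMod N) (j : ℕ) : (Vx p j).card ≤ m :=
  card_image_le.trans (by simp)

lemma pt_mem {m : ℕ} (p : Fin m → ZMod N) (j : ℕ) (c : Fin m) : pt p j c ∈ Vx p j :=
  mem_image_of_mem _ (mem_univ c)

/-- The values of `f` away from `i` cover all labels up to `k`. -/
def Door (k : ℕ) (f : ℕ → ℕ) (i : ℕ) : Prop := ∀ c ≤ k, ∃ j ≤ k + 1, j ≠ i ∧ f j = c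

open Classical in
/-- Indicator modulo two. -/
def ind (P : Prop) : ZMod 2 := if P then 1 else 0

lemma ind_add (P : Prop) : ind P + ind P = 0 := CharTwo.add_self_eq_zero _

lemma door_even {k : ℕ} {f : ℕ → ℕ} (h1 : ∀ j, f j ≤ k + 1)
    (h2 : ¬ ∀ c ≤ k + 1, ∃ j ≤ k + 1, f j = c) : ∑ i ∈ range (k + 2), ind (Door k f i) = 0 := by
  classical
  by_cases h : ∃ i, Door k f i
  · obtain ⟨i₀, h₀⟩ := h
    have a : ∀ j ≤ k + 1, f j ≤ k := by
      intro j hj
      by_contra c
      refine h2 fun c' hc' => ?_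
      rcases Nat.lt_or_ge k c' with b | b
      · exact ⟨j, hj, by have := h1 j; omega⟩
      · exact (h₀ c' b).imp fun _ k => ⟨k.1, k.2.2⟩
    have b : ∀ i j, j ≤ k + 1 → j ≠ i → f j = f i → Door k f i := by
      intro i j hj hji e c hc
      obtain ⟨j', a1, -, a2⟩ := h₀ c hc
      by_cases k' : j' = i
      · exact ⟨j, hj, hji, by rw [e, ← k', a2]⟩
      · exact ⟨j', a1, k', a2⟩
    obtain ⟨i₀, hi₀, h₀⟩ : ∃ i ≤ k + 1, Door k f i := by
      obtain ⟨x, hx, y, hy, e1, e2⟩ := exists_ne_map_eq_of_card_lt_of_maps_to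
        (s := range (k + 2)) (t := range (k + 1)) (by simp) (f := f)
        (fun j hj => by have := a j (by simpa [Nat.lt_succ_iff] using hj); simp; omega)
      rw [mem_range] at hx hy
      exact ⟨y, by omega, b y x (by omega) e1 e2⟩
    obtain ⟨i₁, a1, a2, a3⟩ := h₀ (f i₀) (a i₀ hi₀)
    have inj : Set.InjOn f ((range (k + 2)).erase i₀ : Finset ℕ) := by
      refine injOn_of_surjOn_of_card_le (t := range (k + 1)) f (fun j hj => ?_) (fun c hc => ?_) ?_
      · have := a j (by simp at hj; omega)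
        simp
        omega
      · obtain ⟨j, b1, b2, b3⟩ := h₀ c (by simp at hc; omega)
        exact ⟨j, by simp; omega, b3⟩
      · rw [card_erase_of_mem (by simp; omega)]
        simp
    have c : (range (k + 2)).filter (Door k f) = {i₀, i₁} := by
      ext i
      rw [mem_filter, mem_range, mem_insert, mem_singleton]
      constructor
      · rintro ⟨b1, b2⟩
        obtain ⟨j, c1, c2, c3⟩ := b2 (f i) (a i (by omega))
        by_cases e : i = i₀
        · exact Or.inl e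
        · right
          by_cases e' : j = i₀
          · exact inj (by simp; omega) (by simp; omega) (by rw [a3, ← e', c3])
          · exact absurd (inj (by simp; omega) (by simp; omega) c3) c2
      · rintro (rfl | rfl)
        · exact ⟨by omega, h₀⟩
        · exact ⟨by omega, b _ i₀ hi₀ a2.symm a3.symm⟩
    unfold ind
    rw [sum_boole]
    have : ((range (k + 2)).filter (Door k f)).card = 2 := by rw [c, card_pair a2.symm]
    rw [ZMod.natCast_eq_zero_iff]
    exact Dvd.intro 1 (by rw [mul_one]; convert this.symm)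
  · exact sum_eq_zero fun i _ => if_neg fun c => h ⟨i, c⟩

variable [NeZero N] {k : ℕ} (ℓ : Finset (ZMod N) → ℕ)

/-- All labels up to `k` occur on the simplex `q`. -/
def Full (q : Fin k → ZMod N) : Prop := ∀ c ≤ k, ∃ j ≤ k, ℓ (Vx q j) = c

lemma door_ends : ∑ p : Fin (k + 1) → ZMod N, ind (Door k (fun j => ℓ (Vx p j)) 0) =
    ∑ p : Fin (k + 1) → ZMod N, ind (Door k (fun j => ℓ (Vx p j)) (k + 1)) := by
  let ρ : (Fin (k + 1) → ZMod N) → (Fin (k + 1) → ZMod N) := fun p c =>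
    p (finRotate (k + 1) c) + if c = Fin.last k then 1 else 0
  have hρ : Function.Injective ρ := fun p p' e => funext fun c => by
    simpa [ρ] using congrFun e ((finRotate (k + 1)).symm c)
  have hv : ∀ p, ∀ j ≤ k, Vx (ρ p) j = Vx p (j + 1) := fun p j hj =>
    Vx_of (finRotate (k + 1)) (finRotate (k + 1)).surjective fun c => by
      by_cases h : c = Fin.last k
      · subst h
        simp [pt, ρ, not_lt.2 hj]
      · simp only [pt, ρ, coe_finRotate_of_ne_last h, if_neg h, add_zero, Nat.add_lt_add_iff_right]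
  refine Fintype.sum_bijective ρ (Finite.injective_iff_bijective.1 hρ) _ _ fun p => ?_
  congr 1
  refine propext (forall₂_congr fun c _ => ⟨?_, ?_⟩)
  · rintro ⟨j, a1, a2, a3⟩
    obtain ⟨j, rfl⟩ := Nat.exists_eq_succ_of_ne_zero a2
    exact ⟨j, by omega, by omega, (congrArg ℓ (hv p j (by omega))).trans a3⟩
  · rintro ⟨j, a1, a2, a3⟩
    exact ⟨j + 1, by omega, by omega, (congrArg ℓ (hv p j (by omega))).symm.trans a3⟩

lemma door_mid (a : Fin k) : ∑ p : Fin (k + 1) → ZMod N, ind (Door k (fun j => ℓ (Vx p j)) (a + 1)) =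
    ∑ q : Fin k → ZMod N, ind (Full ℓ q) := by
  have ha := a.2
  rw [← sum_filter_add_sum_filter_not univ (fun p => p a.castSucc = p a.succ)]
  have h1 : ∑ p ∈ univ.filter (fun p : Fin (k + 1) → ZMod N => ¬ p a.castSucc = p a.succ),
      ind (Door k (fun j => ℓ (Vx p j)) (a + 1)) = 0 := by
    refine sum_involution (fun p _ => p ∘ Equiv.swap a.castSucc a.succ) (fun p _ => ?_)
      (fun p hp _ e => ?_) (fun p hp => ?_) (fun p _ => ?_)
    · have hv : ∀ j : ℕ, j ≠ a + 1 → Vx (p ∘ Equiv.swap a.castSucc a.succ) j = Vx p j := fun j hj =>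
        Vx_comp p _ (Equiv.surjective _) fun c => by
          rw [Equiv.swap_apply_def]
          split_ifs with e1 e2
          · rw [e1, Fin.val_castSucc, Fin.val_succ]
            omega
          · rw [e2, Fin.val_castSucc, Fin.val_succ]
            omega
          · rfl
      have : Door k (fun j => ℓ (Vx (p ∘ Equiv.swap a.castSucc a.succ) j)) (a + 1) =
          Door k (fun j => ℓ (Vx p j)) (a + 1) :=
        propext (forall₂_congr fun c _ => exists_congr fun j => and_congr_right fun _ =>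
          and_congr_right fun hj => by dsimp only; rw [hv j hj])
      rw [this, ind_add]
    · exact (mem_filter.1 hp).2 (by simpa using congrFun e a.succ)
    · simpa [eq_comm] using hp
    · funext c
      simp
  rw [h1, add_zero]
  symm
  refine sum_nbij' (fun q => q ∘ Fin.predAbove a) (fun p => p ∘ a.castSucc.succAbove)
    (fun q _ => by simp) (fun _ _ => by simp) (fun q _ => funext fun c => by simp)
    (fun p hp => funext fun c => ?_) (fun q _ => ?_)
  · by_cases e : c = a.castSucc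
    · subst e
      simpa [eq_comm] using hp
    · simp [Fin.succAbove_predAbove e]
  · have hv : ∀ j j' : ℕ, (j ≤ a ∧ j' = j) ∨ (a + 1 < j ∧ j = j' + 1) →
        Vx (q ∘ Fin.predAbove a) j = Vx q j' := fun j j' h =>
      Vx_comp q _ (Fin.predAbove_surjective a) fun c => by
        unfold Fin.predAbove
        split_ifs with e
        · rw [Fin.val_pred]
          rw [Fin.lt_def, Fin.val_castSucc] at e
          omega
        · rw [Fin.coe_castPred]
          rw [Fin.lt_def, Fin.val_castSucc] at e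
          omega
    congr 1
    refine propext (forall₂_congr fun c _ => ⟨?_, ?_⟩)
    · rintro ⟨j, a1, a2⟩
      by_cases e : j ≤ a
      · exact ⟨j, by omega, by omega, (congrArg ℓ (hv j j (by omega))).trans a2⟩
      · exact ⟨j + 1, by omega, by omega, (congrArg ℓ (hv (j + 1) j (by omega))).trans a2⟩
    · rintro ⟨j, a1, a2, a3⟩
      by_cases e : j ≤ a
      · exact ⟨j, by omega, (congrArg ℓ (hv j j (by omega))).symm.trans a3⟩
      · exact ⟨j - 1, by omega, (congrArg ℓ (hv j (j - 1) (by omega))).symm.trans a3⟩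

theorem door_count (h1 : ∀ A, ℓ A ≤ k + 1)
    (h2 : ∀ p : Fin (k + 1) → ZMod N, ¬ ∀ c ≤ k + 1, ∃ j ≤ k + 1, ℓ (Vx p j) = c) :
    (k : ZMod 2) * ∑ q : Fin k → ZMod N, ind (Full ℓ q) = 0 := by
  have a : ∑ p : Fin (k + 1) → ZMod N, ∑ i ∈ range (k + 2),
      ind (Door k (fun j => ℓ (Vx p j)) i) = 0 :=
    sum_eq_zero fun p _ => door_even (fun _ => h1 _) (h2 p)
  rw [sum_comm, sum_range_succ, sum_range_succ', add_assoc, door_ends, CharTwo.add_self_eq_zero,
    add_zero, sum_range] at a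
  simp only [door_mid] at a
  simpa using a

end Pool.Agent.Work.MP_dc63d3_gt
end
end

-- merged part: Pool.Agent.Work.MP_dc63d3_gt.Label
section
/-!
A labelling that localises at `k` equally spaced points; there is no discrete retraction from
sets of `k + 1` points to sets of `k` points of the circle when `k` is odd.
-/

set_option autoImplicit false

noncomputable section

namespace Pool.Agent.Work.MP_dc63d3_gt

open Finset

variable {k M m : ℕ}

/-- The point `j M + y`. -/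
def ps (k M j : ℕ) (y : ℤ) : ZMod (k * M) := ((j * M + y : ℤ) : ZMod (k * M))

lemma ps_add (j : ℕ) (y z : ℤ) : ps k M j y + z = ps k M j (y + z) := by
  unfold ps
  push_cast
  ring

lemma ps_inj {i j : ℕ} (hi : i < k) (hj : j < k) {y y' : ℤ} (h : |y - y'| < M)
    (e : ps k M i y = ps k M j y') : i = j ∧ y = y' := by
  rw [ps, ps, ZMod.intCast_eq_intCast_iff_dvd_sub] at e
  obtain ⟨c, hc⟩ := e
  push_cast at hc
  have hM : (0 : ℤ) < M := (abs_nonneg _).trans_lt h
  have a : y - y' = 0 :=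
    Int.eq_zero_of_abs_lt_dvd (m := M) ⟨j - i - k * c, by linear_combination -hc⟩ h
  have b : (j : ℤ) - i = k * c := mul_right_cancel₀ hM.ne' (by linear_combination hc + a)
  have d : (j : ℤ) - i = 0 :=
    Int.eq_zero_of_abs_lt_dvd (m := k) ⟨c, b⟩ (abs_lt.2 ⟨by omega, by omega⟩)
  omega

/-- Just after the `j`-th marked point. -/
def Pl (m j : ℕ) (u : ZMod (k * M)) : Prop := ∃ y : ℤ, 1 ≤ y ∧ y ≤ 2 * m ∧ u = ps k M j y

/-- At or just before the `j`-th marked point. -/
def Mi (m j : ℕ) (u : ZMod (k * M)) : Prop := ∃ y : ℤ, -(2 * m) ≤ y ∧ y ≤ 0 ∧ u = ps k M j y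

/-- Near every marked point there is a point of `A`. -/
def In (m : ℕ) (A : Finset (ZMod (k * M))) : Prop := ∀ j < k, ∃ u ∈ A, Pl m j u ∨ Mi m j u

open Classical in
/-- The label. -/
def lab (m : ℕ) (A : Finset (ZMod (k * M))) : ℕ :=
  if In m A then Nat.find (⟨k, Or.inl rfl⟩ : ∃ j, j = k ∨ ∃ u ∈ A, Mi m j u) else k + 1

lemma lab_iff {A : Finset (ZMod (k * M))} {c : ℕ} (hc : c ≤ k) : lab m A = c ↔
    In m A ∧ (c = k ∨ ∃ u ∈ A, Mi m c u) ∧ ∀ i < c, ∀ u ∈ A, ¬ Mi m i u := by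
  classical
  unfold lab
  split_ifs with h
  · rw [Nat.find_eq_iff]
    refine ⟨fun a => ⟨h, a.1, fun i hi u hu e => a.2 i hi (Or.inr ⟨u, hu, e⟩)⟩,
      fun a => ⟨a.2.1, fun i hi e => ?_⟩⟩
    rcases e with e | ⟨u, hu, e⟩
    · omega
    · exact a.2.2 i hi u hu e
  · exact ⟨fun a => by omega, fun a => absurd a.1 h⟩

lemma lab_le_of_in {A : Finset (ZMod (k * M))} (h : In m A) : lab m A ≤ k := by
  classical
  rw [lab, if_pos h]
  exact Nat.find_min' _ (Or.inl rfl)

lemma lab_le (A : Finset (ZMod (k * M))) : lab m A ≤ k + 1 := by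
  by_cases h : In m A
  · exact (lab_le_of_in h).trans k.le_succ
  · rw [lab, if_neg h]

lemma all_plus (hM : 5 * m < M) {A : Finset (ZMod (k * M))} (hA : A.card ≤ k) (h : lab m A = k) :
    ∀ u ∈ A, ∃ j < k, Pl m j u := by
  obtain ⟨h1, -, h2⟩ := (lab_iff le_rfl).1 h
  choose! g g1 g2 using h1
  have g3 : ∀ j < k, Pl m j (g j) := fun j hj => (g2 j hj).resolve_right (h2 j hj _ (g1 j hj))
  have s : Set.SurjOn g (range k) A := by
    refine surjOn_of_injOn_of_card_le g (fun j hj => g1 j (by simpa using hj)) ?_ (by simpa using hA)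
    intro i hi j hj e
    rw [coe_range, Set.mem_Iio] at hi hj
    obtain ⟨y, a1, a2, a3⟩ := g3 i hi
    obtain ⟨y', b1, b2, b3⟩ := g3 j hj
    exact (ps_inj hi hj (abs_lt.2 ⟨by omega, by omega⟩) (a3.symm.trans (e.trans b3))).1
  intro u hu
  obtain ⟨j, hj, rfl⟩ := s hu
  rw [coe_range, Set.mem_Iio] at hj
  exact ⟨j, hj, g3 j hj⟩

/-- Every point of `A` is at most `m` steps from a point of `B`. -/
def Close {N : ℕ} (m : ℕ) (A B : Finset (ZMod N)) : Prop :=
  ∀ u ∈ A, ∃ u' ∈ B, ∃ z : ℤ, |z| ≤ m ∧ u' = u + z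

lemma no_full (hM : 5 * m < M) {F : ℕ → Finset (ZMod (k * M))} (h1 : ∀ j, (F j).card ≤ k)
    (h2 : ∀ i j, Close m (F i) (F j)) : ¬ ∀ c ≤ k + 1, ∃ j ≤ k + 1, lab m (F j) = c := by
  intro h
  obtain ⟨a, -, ha⟩ := h (k + 1) le_rfl
  obtain ⟨b, -, hb⟩ := h k k.le_succ
  have : In m (F a) := by
    intro c hc
    obtain ⟨j, -, hj⟩ := h c (by omega)
    obtain ⟨u, hu, y, a1, a2, rfl⟩ := ((lab_iff hc.le).1 hj).2.1.resolve_left hc.ne
    obtain ⟨u', hu', z, b1, rfl⟩ := h2 j b _ hu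
    obtain ⟨i, hi, y', c1, c2, c3⟩ := all_plus hM (h1 b) hb _ hu'
    obtain ⟨u'', hu'', z', d1, rfl⟩ := h2 b a _ hu'
    rw [abs_le] at b1 d1
    rw [ps_add] at c3
    obtain ⟨-, e⟩ := ps_inj hc hi (abs_lt.2 ⟨by omega, by omega⟩) c3
    refine ⟨_, hu'', ?_⟩
    rw [ps_add, ps_add]
    rcases le_or_gt (y + z + z') 0 with f | f
    · exact Or.inr ⟨_, by omega, f, rfl⟩
    · exact Or.inl ⟨_, f, by omega, rfl⟩
  have := lab_le_of_in this
  omega

lemma pt_ps {q : Fin k → ZMod (k * M)} {a : Fin k} {c : ℕ} {y : ℤ} (h : q a = ps k M c y) (j : ℕ) :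
    pt q j a = ps k M c (y + if (a : ℕ) < j then 1 else 0) := by
  rw [← ps_add, pt, h]
  split_ifs <;> simp

lemma full_iff (hm : 1 ≤ m) (hM : 5 * m < M) (q : Fin k → ZMod (k * M)) :
    (∀ c ≤ k, ∃ j ≤ k, lab m (Vx q j) = c) ↔ q = fun c : Fin k => ps k M c 0 := by
  constructor
  · intro h
    obtain ⟨b, -, hb⟩ := h k le_rfl
    have a : ∀ c : Fin k, ∃ (j : ℕ) (a : Fin k), q a = ps k M c 0 ∧ j ≤ a ∧
        ∀ i < (c : ℕ), ∀ u ∈ Vx q j, ¬ Mi m i u := by
      intro c
      obtain ⟨j, -, hj⟩ := h c c.2.le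
      obtain ⟨-, h1, h2⟩ := (lab_iff c.2.le).1 hj
      obtain ⟨u, hu, y, a1, a2, e⟩ := h1.resolve_left c.2.ne
      obtain ⟨a, -, rfl⟩ := mem_image.1 hu
      obtain ⟨i, hi, y', c1, c2, c3⟩ := all_plus hM (Vx_card q b) hb _ (pt_mem q b a)
      have e1 : q a = ps k M c (y - if (a : ℕ) < j then 1 else 0) := by
        rw [sub_eq_add_neg, ← ps_add, ← e, pt]
        split_ifs <;> simp
      rw [pt_ps e1] at c3
      obtain ⟨-, e2⟩ := ps_inj c.2 hi (abs_lt.2 ⟨by split_ifs <;> omega, by split_ifs <;> omega⟩) c3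
      have e3 : y = 0 ∧ ¬ (a : ℕ) < j := by split_ifs at e2 <;> omega
      exact ⟨j, a, by rw [e1, e3.1, if_neg e3.2, sub_zero], not_lt.1 e3.2, h2⟩
    choose J τ t1 t2 t3 using a
    have s : StrictMono τ := by
      intro i c hic
      refine lt_of_lt_of_le (b := J c) ?_ (t2 c)
      by_contra e
      refine t3 c i hic _ (pt_mem q (J c) (τ i)) ⟨0, by omega, le_rfl, ?_⟩
      rw [pt_ps (t1 i), if_neg e, add_zero]
    funext c
    have := t1 c
    rwa [s.apply_eq] at this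
  · rintro rfl c hc
    refine ⟨c, hc, (lab_iff hc).2 ⟨fun j hj => ⟨_, pt_mem _ c ⟨j, hj⟩, ?_⟩, ?_, ?_⟩⟩
    · rw [pt_ps rfl]
      split_ifs
      · exact Or.inl ⟨_, by omega, by omega, rfl⟩
      · exact Or.inr ⟨_, by omega, by omega, rfl⟩
    · rcases hc.eq_or_lt with e | e
      · exact Or.inl e
      · refine Or.inr ⟨_, pt_mem _ c ⟨c, e⟩, 0, by omega, le_rfl, ?_⟩
        rw [pt_ps rfl, if_neg (lt_irrefl c), add_zero]
    · rintro i hi u hu ⟨y, a1, a2, e⟩
      obtain ⟨a, -, rfl⟩ := mem_image.1 hu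
      rw [pt_ps rfl] at e
      have := ps_inj a.2 (by omega : i < k)
        (abs_lt.2 ⟨by split_ifs <;> omega, by split_ifs <;> omega⟩) e
      split_ifs at this <;> omega

theorem no_retr (hk : Odd k) (hm : 1 ≤ m) (hM : 5 * m < M)
    (R : Finset (ZMod (k * M)) → Finset (ZMod (k * M)))
    (h1 : ∀ (p : Fin (k + 1) → ZMod (k * M)) j, (R (Vx p j)).card ≤ k)
    (h2 : ∀ (q : Fin k → ZMod (k * M)) j, R (Vx q j) = Vx q j)
    (h3 : ∀ (p : Fin (k + 1) → ZMod (k * M)) i j, Close m (R (Vx p i)) (R (Vx p j))) : False := by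
  classical
  have : NeZero (k * M) := ⟨Nat.mul_ne_zero hk.pos.ne' (by omega)⟩
  have a := door_count (k := k) (fun A => lab m (R A)) (fun _ => lab_le _)
    (fun p => no_full hM (h1 p) (h3 p))
  have b : ∀ q : Fin k → ZMod (k * M), ind (Full (fun A => lab m (R A)) q) =
      if q = fun c : Fin k => ps k M c 0 then 1 else 0 := by
    intro q
    unfold ind Full
    simp only [h2, full_iff hm hM]
  simp only [b, sum_ite_eq', mem_univ, if_true, mul_one] at a
  rw [ZMod.natCast_eq_zero_iff] at a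
  obtain ⟨c, rfl⟩ := hk
  omega

end Pool.Agent.Work.MP_dc63d3_gt
end
end

-- merged part: Pool.Agent.Work.MP_dc63d3_gt.Lower
section
/-!
The linear lower bound: a retraction with a small Lipschitz constant gives a discrete retraction
on the circle.
-/

set_option autoImplicit false

noncomputable section

namespace Pool.Agent.Work.MP_dc63d3_gt

open Finset Real

section circle

variable {N : ℕ} [NeZero N]

/-- The roots of unity. -/
def ru (t : ZMod N) : ℂ := ZMod.stdAddChar t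

/-- The nearest root of unity in angle. -/
def kap (N : ℕ) (z : ℂ) : ZMod N := (round (Complex.arg z * N / (2 * π)) : ℤ)

lemma ru_int (j : ℤ) : ru (j : ZMod N) = Complex.exp ((2 * π * j / N : ℝ) * Complex.I) := by
  rw [ru, ZMod.stdAddChar_coe]
  congr 1
  push_cast
  ring

lemma norm_ru (t : ZMod N) : ‖ru t‖ = 1 := by
  obtain ⟨j, rfl⟩ := ZMod.intCast_surjective t
  rw [ru_int, Complex.norm_exp_ofReal_mul_I]

lemma dist_ru (t : ZMod N) (z : ℤ) {b : ℝ} (h : |(z : ℝ)| ≤ b) :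
    dist (ru (t + (z : ZMod N))) (ru t) ≤ 2 * π * b / N := by
  have e : ru (t + (z : ZMod N)) - ru t = ru t * (ru (z : ZMod N) - 1) := by
    rw [ru, AddChar.map_add_eq_mul, mul_sub, mul_one]
    rfl
  rw [dist_eq_norm, e, norm_mul, norm_ru, one_mul, ru_int, mul_comm _ Complex.I]
  refine Real.norm_exp_I_mul_ofReal_sub_one_le.trans ?_
  rw [Real.norm_eq_abs, abs_div, abs_mul, abs_of_pos two_pi_pos, Nat.abs_cast]
  gcongr

lemma kap_ru (t : ZMod N) : kap N (ru t) = t := by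
  obtain ⟨j, rfl⟩ := ZMod.intCast_surjective t
  have hN : (N : ℝ) ≠ 0 := Nat.cast_ne_zero.2 (NeZero.ne N)
  obtain ⟨l, hl⟩ := Real.Angle.angle_eq_iff_two_pi_dvd_sub.1
    (Complex.arg_exp_mul_I (2 * π * j / N) ▸ Real.Angle.coe_toIocMod (2 * π * j / N) (-π))
  have e : Complex.arg (ru (j : ZMod N)) * N / (2 * π) = ((j + N * l : ℤ) : ℝ) := by
    rw [ru_int, eq_add_of_sub_eq hl]
    push_cast
    field_simp
    ring
  rw [kap, e, round_intCast]
  simp

omit [NeZero N] in
lemma kap_close {z z' : ℂ} (hz : z ≠ 0) (hz' : z' ≠ 0) {m : ℕ}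
    (h : |Complex.arg (z' / z)| * N / (2 * π) ≤ m) :
    ∃ w : ℤ, |w| ≤ (m + 1 : ℕ) ∧ kap N z' = kap N z + w := by
  have a := Complex.arg_mul_coe_angle hz (div_ne_zero hz' hz)
  rw [mul_div_cancel₀ _ hz, ← Real.Angle.coe_add] at a
  obtain ⟨l, hl⟩ := Real.Angle.angle_eq_iff_two_pi_dvd_sub.1 a
  refine ⟨round (Complex.arg z' * N / (2 * π)) - round (Complex.arg z * N / (2 * π)) - N * l, ?_,
    by simp [kap]⟩
  have b1 := abs_le.1 (abs_sub_round (Complex.arg z' * N / (2 * π)))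
  have b2 := abs_le.1 (abs_sub_round (Complex.arg z * N / (2 * π)))
  have e : Complex.arg z' * N / (2 * π) - Complex.arg z * N / (2 * π) - N * l =
      Complex.arg (z' / z) * N / (2 * π) := by
    rw [eq_add_of_sub_eq hl]
    field_simp
    ring
  have b3 : |Complex.arg (z' / z) * N / (2 * π)| ≤ m := by
    rwa [abs_div, abs_mul, abs_of_pos two_pi_pos, Nat.abs_cast]
  rw [← e, abs_le] at b3
  rw [← Int.cast_le (R := ℝ)]
  push_cast
  rw [abs_le]
  constructor <;> linarith [b1.1, b1.2, b2.1, b2.2, b3.1, b3.2]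

lemma near_ru {A B : Finset (ZMod N)} (F : Finset ℂ) {b : ℝ} (hb : 0 ≤ b)
    (h : ∀ u ∈ A, ∃ v ∈ B, ∃ z : ℤ, |(z : ℝ)| ≤ b ∧ u = v + z)
    (h' : ∀ u ∈ B, ∃ v ∈ A, ∃ z : ℤ, |(z : ℝ)| ≤ b ∧ u = v + z) :
    Near (A.image ru ∪ F) (B.image ru ∪ F) (2 * π * b / N) := by
  have key : ∀ A B : Finset (ZMod N), (∀ u ∈ A, ∃ v ∈ B, ∃ z : ℤ, |(z : ℝ)| ≤ b ∧ u = v + z) →
      ∀ x ∈ A.image ru ∪ F, ∃ y ∈ B.image ru ∪ F, dist x y ≤ 2 * π * b / N := by
    intro A B h x hx
    rcases mem_union.1 hx with hx | hx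
    · obtain ⟨u, hu, rfl⟩ := mem_image.1 hx
      obtain ⟨v, hv, z, a, rfl⟩ := h u hu
      exact ⟨_, mem_union_left _ (mem_image_of_mem _ hv), dist_ru v z a⟩
    · exact ⟨x, mem_union_right _ hx, by rw [dist_self]; positivity⟩
  exact ⟨key A B h, key B A h'⟩

omit [NeZero N] in
lemma Vx_step {m : ℕ} (p : Fin m → ZMod N) (i j : ℕ) :
    ∀ u ∈ Vx p i, ∃ v ∈ Vx p j, ∃ z : ℤ, |(z : ℝ)| ≤ 1 ∧ u = v + z := by
  intro u hu
  obtain ⟨c, -, rfl⟩ := mem_image.1 hu
  refine ⟨_, pt_mem p j c, ?_⟩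
  unfold pt
  split_ifs
  · exact ⟨0, by simp, by simp⟩
  · exact ⟨1, by simp, by simp⟩
  · exact ⟨-1, by simp, by simp⟩
  · exact ⟨0, by simp, by simp⟩

end circle

lemma two_close {k M : ℕ} [NeZero (k * M)] {A : Finset (ZMod (k * M))} (h : k < A.card) :
    ∃ u ∈ A, ∃ v ∈ A, u ≠ v ∧ ∃ z : ℤ, |(z : ℝ)| ≤ M ∧ u = v + z := by
  have hM : 0 < M := Nat.pos_of_ne_zero fun c => NeZero.ne (k * M) (by simp [c])
  obtain ⟨u, hu, v, hv, a, b⟩ := exists_ne_map_eq_of_card_lt_of_maps_to (s := A) (t := range k)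
    (by simpa using h) (f := fun u => u.val / M)
    (fun u _ => by simpa using (Nat.div_lt_iff_lt_mul hM).2 (ZMod.val_lt u))
  refine ⟨u, hu, v, hv, a, (u.val : ℤ) - v.val, ?_, by simp⟩
  have c1 := Nat.div_add_mod u.val M
  have c2 := Nat.div_add_mod v.val M
  have c3 := Nat.mod_lt u.val hM
  have c4 := Nat.mod_lt v.val hM
  rw [b] at c1
  have : |(u.val : ℤ) - v.val| ≤ M := abs_le.2 ⟨by omega, by omega⟩
  exact_mod_cast this

theorem plane {k : ℕ} (hk : Odd k) (F : Finset ℂ) (hF : ∀ z ∈ F, z = 5) {L : ℝ} (hL : 0 ≤ L)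
    {r : Finset ℂ → Finset ℂ} (h : IsLipRetr (k + 1 + F.card) L r) (hk' : 13 * (L + 1) ≤ k) :
    False := by
  have k0 : (0 : ℝ) < k := by exact_mod_cast hk.pos
  obtain ⟨θ, θ0, hθ⟩ := Metric.continuousAt_iff.1
    (Complex.continuousAt_arg (x := 1) (by simp)) (π / (10 * k)) (by positivity)
  obtain ⟨m, hm⟩ := exists_nat_gt (max 1 (L * π / min θ 1))
  have m1 : (1 : ℝ) < m := (le_max_left _ _).trans_lt hm
  have m2 : 1 < m := by exact_mod_cast m1
  have : NeZero (k * (20 * m)) := ⟨Nat.mul_ne_zero hk.pos.ne' (by omega)⟩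
  have k1 : (1 : ℝ) ≤ k := by exact_mod_cast hk.pos
  have small : 2 * (L * (2 * π * 1 / (k * (20 * m) : ℕ))) < min θ 1 := by
    have a := (le_max_right _ _).trans_lt hm
    have b : 0 < min θ 1 := lt_min θ0 one_pos
    rw [div_lt_iff₀ b] at a
    rw [← mul_div_assoc, ← mul_div_assoc, div_lt_iff₀ (by push_cast; positivity)]
    push_cast
    have c : 0 ≤ L * π := by positivity
    have d : m * min θ 1 ≤ k * (m * min θ 1) := le_mul_of_one_le_left (by positivity) k1
    nlinarith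
  let S : Finset (ZMod (k * (20 * m))) → Finset ℂ := fun A => A.image ru ∪ F
  have S1 : ∀ A, (S A).card ≤ A.card + F.card := fun A =>
    (card_union_le _ _).trans (Nat.add_le_add_right card_image_le _)
  have S2 : ∀ A, A.Nonempty → (S A).Nonempty := fun A hA => (hA.image _).mono subset_union_left
  have S3 : ∀ A, A.Nonempty → A.card ≤ k → r (S A) = S A := fun A h1 h2 =>
    h.2.1 _ (S2 A h1) (by have := S1 A; omega)
  have N1 : ∀ A, A.Nonempty → A.card ≤ k + 1 → Near (r (S A)) (S A) (1 / 2) := by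
    intro A h1 h2
    by_cases c : A.card ≤ k
    · rw [S3 A h1 c]
      exact near_refl _ (by norm_num)
    · obtain ⟨u, hu, v, hv, a, z, b, e⟩ := two_close (not_le.1 c)
      have hv' : v ∈ A.erase u := mem_erase.2 ⟨a.symm, hv⟩
      have c1 : (A.erase u).card ≤ k := by rw [card_erase_of_mem hu]; omega
      have c2 : Near (S A) (S (A.erase u)) (2 * π * (20 * m : ℕ) / (k * (20 * m) : ℕ)) := by
        refine near_ru F (by positivity) (fun w hw => ?_)
          (fun w hw => ⟨w, mem_of_mem_erase hw, 0, by simp, by simp⟩)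
        by_cases d : w = u
        · exact ⟨v, hv', z, b, d ▸ e⟩
        · exact ⟨w, mem_erase.2 ⟨d, hw⟩, 0, by simp, by simp⟩
      have c3 : 2 * π * (20 * m : ℕ) / (k * (20 * m) : ℕ) = 2 * π / k := by
        push_cast
        field_simp
      rw [c3] at c2
      have c4 := h.near hL (S2 A h1) (by have := S1 A; omega) (S2 _ ⟨v, hv'⟩)
        (by have := S1 (A.erase u); omega) (by positivity) c2
      rw [S3 _ ⟨v, hv'⟩ c1] at c4
      refine (c4.trans c2.symm).mono ?_
      rw [← add_one_mul, ← mul_div_assoc, div_le_iff₀ k0]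
      nlinarith [pi_lt_d2]
  have N2 : ∀ A, A.Nonempty → A.card ≤ k + 1 → ∀ z ∈ r (S A), ‖z‖ ≤ 3 →
      1 / 2 ≤ ‖z‖ ∧ ‖z‖ ≤ 2 := by
    intro A h1 h2 z hz hz'
    obtain ⟨y, hy, a⟩ := (N1 A h1 h2).1 z hz
    have b := abs_le.1 ((abs_norm_sub_norm_le z y).trans (dist_eq_norm z y ▸ a))
    rcases mem_union.1 hy with c | c
    · obtain ⟨u, -, rfl⟩ := mem_image.1 c
      rw [norm_ru] at b
      constructor <;> linarith [b.1, b.2]
    · rw [hF y c, Complex.norm_ofNat] at b
      linarith [b.1]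
  have V1 : ∀ (p : Fin (k + 1) → ZMod (k * (20 * m))) j, (Vx p j).Nonempty :=
    fun p j => ⟨_, pt_mem p j 0⟩
  refine no_retr (M := 20 * m) (m := m + 1) hk (by omega) (by omega)
    (fun A => ((r (S A)).filter (fun z => ‖z‖ ≤ 2)).image (kap _)) (fun p j => ?_)
    (fun q j => ?_) (fun p i j u hu => ?_)
  · refine card_image_le.trans ?_
    have a := (h.1 _ (S2 _ (V1 p j)) (by have := S1 (Vx p j); have := Vx_card p j; omega)).2
    rcases F.eq_empty_or_nonempty with e | ⟨y, hy⟩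
    · have := card_filter_le (r (S (Vx p j))) (fun z => ‖z‖ ≤ 2)
      rw [e, card_empty] at a
      omega
    · have b : F.card ≤ 1 := card_le_one.2 fun x hx x' hx' => (hF x hx).trans (hF x' hx').symm
      obtain ⟨z, hz, c⟩ := (N1 _ (V1 p j) (Vx_card p j)).2 y (mem_union_right _ hy)
      have d := abs_le.1 ((abs_norm_sub_norm_le y z).trans (dist_eq_norm y z ▸ c))
      rw [hF y hy, Complex.norm_ofNat] at d
      have := card_lt_card ((filter_ssubset (s := r (S (Vx p j))) (p := fun z => ‖z‖ ≤ 2)).2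
        ⟨z, hz, by linarith [d.2]⟩)
      omega
  · rw [S3 _ ⟨_, pt_mem q j ⟨0, hk.pos⟩⟩ (Vx_card q j)]
    ext u
    simp only [S, mem_image, mem_filter, mem_union]
    constructor
    · rintro ⟨z, ⟨⟨v, hv, rfl⟩ | a, b⟩, rfl⟩
      · rwa [kap_ru]
      · rw [hF z a, Complex.norm_ofNat] at b
        linarith
    · exact fun hu => ⟨ru u, ⟨Or.inl ⟨u, hu, rfl⟩, by rw [norm_ru]; norm_num⟩, kap_ru u⟩
  · obtain ⟨z, hz, rfl⟩ := mem_image.1 hu
    obtain ⟨z1, z2⟩ := mem_filter.1 hz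
    obtain ⟨z', hz', a⟩ := (h.near hL (S2 _ (V1 p i))
      (by have := S1 (Vx p i); have := Vx_card p i; omega) (S2 _ (V1 p j))
      (by have := S1 (Vx p j); have := Vx_card p j; omega) (by positivity)
      (near_ru F zero_le_one (Vx_step p i j) (Vx_step p j i))).1 z z1
    have s1 := small.trans_le (min_le_left _ _)
    have s2 := small.trans_le (min_le_right _ _)
    rw [dist_comm, dist_eq_norm] at a
    have b := abs_le.1 ((abs_norm_sub_norm_le z' z).trans a)
    have c := N2 _ (V1 p i) (Vx_card p i) z z1 (by linarith)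
    have c' := N2 _ (V1 p j) (Vx_card p j) z' hz' (by linarith [b.2])
    have n0 : z ≠ 0 := norm_pos_iff.1 (by linarith [c.1])
    have n1 : z' ≠ 0 := norm_pos_iff.1 (by linarith [c'.1])
    have d : dist (z' / z) 1 < θ := by
      rw [dist_eq_norm, div_sub_one n0, norm_div, div_lt_iff₀ (by linarith [c.1])]
      nlinarith [c.1]
    have e := hθ d
    rw [Complex.arg_one, dist_zero_right, Real.norm_eq_abs, lt_div_iff₀ (by positivity)] at e
    refine ⟨_, mem_image_of_mem _ (mem_filter.2 ⟨hz', c'.2⟩), kap_close n0 n1 ?_⟩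
    rw [div_le_iff₀ two_pi_pos]
    push_cast
    nlinarith

lemma Near.image {X Y : Type} [MetricSpace X] [MetricSpace Y] [DecidableEq Y] {s t : Finset X}
    {d c : ℝ} (h : Near s t d) (hc : 0 ≤ c) {f : X → Y} (hf : ∀ x y, dist (f x) (f y) ≤ c * dist x y) :
    Near (s.image f) (t.image f) (c * d) := by
  have key : ∀ s t : Finset X, (∀ x ∈ s, ∃ y ∈ t, dist x y ≤ d) →
      ∀ x ∈ s.image f, ∃ y ∈ t.image f, dist x y ≤ c * d := by
    intro s t h x hx
    obtain ⟨u, hu, rfl⟩ := mem_image.1 hx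
    obtain ⟨v, hv, a⟩ := h u hu
    exact ⟨_, mem_image_of_mem _ hv, (hf u v).trans (mul_le_mul_of_nonneg_left a hc)⟩
  exact ⟨key s t h.1, key t s h.2⟩

variable {X : Type} [NormedAddCommGroup X] [NormedSpace ℝ X]

lemma exists_plane (hX : 2 ≤ Module.rank ℝ X) : ∃ (ι : ℂ → X) (q : X → ℂ), (∀ z, q (ι z) = z) ∧
    (∀ z w, dist (ι z) (ι w) ≤ 2 * dist z w) ∧ ∀ u v, dist (q u) (q v) ≤ 3 * dist u v := by
  have : Nontrivial X := rank_pos_iff_nontrivial.1 (lt_of_lt_of_le two_pos hX)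
  obtain ⟨e₁, h₁⟩ := exists_norm_eq X zero_le_one
  obtain ⟨f₁, a₁, b₁⟩ := exists_dual_vector ℝ e₁ (by rw [h₁]; exact one_ne_zero)
  obtain ⟨v, hv, hv'⟩ : ∃ v, v ≠ 0 ∧ f₁ v = 0 := by
    by_contra c
    push Not at c
    have inj : Function.Injective (f₁ : X →ₗ[ℝ] ℝ) :=
      (injective_iff_map_eq_zero _).2 fun v h => by_contra fun k => c v k h
    have := hX.trans (LinearMap.rank_le_of_injective _ inj)
    rw [Module.rank_self] at this
    norm_num at this
  obtain ⟨e₂, h₂, c₂⟩ : ∃ e₂ : X, ‖e₂‖ = 1 ∧ f₁ e₂ = 0 :=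
    ⟨‖v‖⁻¹ • v, norm_smul_inv_norm (𝕜 := ℝ) hv, by rw [map_smul, hv', smul_zero]⟩
  obtain ⟨f₂, a₂, b₂⟩ := exists_dual_vector ℝ e₂ (by rw [h₂]; exact one_ne_zero)
  rw [h₁] at b₁
  rw [h₂] at b₂
  have n₁ : ∀ u, |f₁ u| ≤ ‖u‖ := fun u => by simpa [a₁] using f₁.le_opNorm u
  have n₂ : ∀ u, |f₂ u| ≤ ‖u‖ := fun u => by simpa [a₂] using f₂.le_opNorm u
  refine ⟨fun z => z.re • e₁ + z.im • e₂, fun u => ⟨f₁ u, f₂ u - f₂ e₁ * f₁ u⟩, fun z => ?_,
    fun z w => ?_, fun u w => ?_⟩
  · apply Complex.ext <;> simp [b₁, b₂, c₂]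
    ring
  · have e : z.re • e₁ + z.im • e₂ - (w.re • e₁ + w.im • e₂) =
        (z - w).re • e₁ + (z - w).im • e₂ := by
      simp only [Complex.sub_re, Complex.sub_im, sub_smul]
      abel
    rw [dist_eq_norm, dist_eq_norm, e]
    refine (norm_add_le _ _).trans ?_
    rw [norm_smul, norm_smul, h₁, h₂, Real.norm_eq_abs, Real.norm_eq_abs]
    linarith [Complex.abs_re_le_norm (z - w), Complex.abs_im_le_norm (z - w)]
  · rw [dist_eq_norm, dist_eq_norm]
    refine (Complex.norm_le_abs_re_add_abs_im _).trans ?_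
    have e1 : ((⟨f₁ u, f₂ u - f₂ e₁ * f₁ u⟩ : ℂ) - ⟨f₁ w, f₂ w - f₂ e₁ * f₁ w⟩).re = f₁ (u - w) := by
      simp
    have e2 : ((⟨f₁ u, f₂ u - f₂ e₁ * f₁ u⟩ : ℂ) - ⟨f₁ w, f₂ w - f₂ e₁ * f₁ w⟩).im =
        f₂ (u - w) - f₂ e₁ * f₁ (u - w) := by
      simp
      ring
    have e3 : |f₂ e₁ * f₁ (u - w)| ≤ 1 * ‖u - w‖ := by
      rw [abs_mul]
      exact mul_le_mul (h₁ ▸ n₂ e₁) (n₁ _) (abs_nonneg _) zero_le_one
    rw [e1, e2]
    linarith [n₁ (u - w), n₂ (u - w), abs_sub (f₂ (u - w)) (f₂ e₁ * f₁ (u - w))]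

theorem lower (hX : 2 ≤ Module.rank ℝ X) {n : ℕ} (hn : 2 ≤ n) {L : ℝ} {r : Finset X → Finset X}
    (h : IsLipRetr n L r) : (n : ℝ) / 100 ≤ L := by
  classical
  obtain ⟨ι, q, h1, h2, h3⟩ := exists_plane hX
  have L1 : 1 ≤ L := by
    have a := h.2.2 {ι 0} {ι 1} (by simp) (by simp; omega) (by simp) (by simp; omega)
    rw [h.2.1 _ (by simp) (by simp; omega), h.2.1 _ (by simp) (by simp; omega), coe_singleton,
      coe_singleton, Metric.hausdorffDist_singleton] at a
    have b := h3 (ι 0) (ι 1)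
    rw [h1, h1] at b
    simp only [dist_zero_left, norm_one] at b
    by_contra c
    nlinarith
  have hr : IsLipRetr n (6 * L) (fun s => (r (s.image ι)).image q) := by
    refine isLipRetr_of_near (by linarith) (fun s a b => ?_) (fun s a b => ?_)
      (fun s t d a b a' b' hd k => ?_)
    · have := h.1 _ (a.image ι) (card_image_le.trans b)
      exact ⟨this.1.image q, card_image_le.trans this.2⟩
    · rw [h.2.1 _ (a.image ι) (card_image_le.trans b), image_image]
      exact (image_congr fun z _ => h1 z).trans image_id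
    · exact ((h.near (by linarith) (a.image ι) (card_image_le.trans b) (a'.image ι)
        (card_image_le.trans b') (by positivity) (k.image zero_le_two h2)).image
        (by norm_num) h3).mono (le_of_eq (by ring))
  by_contra c
  rw [not_le, lt_div_iff₀ (by norm_num)] at c
  have n3 : 3 ≤ n := by
    have : (3 : ℝ) ≤ n := by linarith
    exact_mod_cast this
  rcases Nat.even_or_odd n with e | e
  · obtain ⟨k, rfl⟩ : ∃ k, n = k + 1 := ⟨n - 1, by omega⟩
    refine plane (Nat.not_even_iff_odd.1 (Nat.even_add_one.1 e)) ∅ (by simp) (by linarith) hr ?_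
    push_cast at c
    linarith
  · obtain ⟨k, rfl⟩ : ∃ k, n = k + 2 := ⟨n - 2, by omega⟩
    refine plane (k := k) (by simpa [Nat.odd_add] using e) {5} (by simp) (by linarith) hr ?_
    push_cast at c
    linarith

end Pool.Agent.Work.MP_dc63d3_gt
end
end
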